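import Pool.Agent.N455.FAT.Main

/-!
# Counting the irreducible FAT colourings of `W (2 b - 1)`
-/

set_option autoImplicit false

namespace Pool.Agent.N455.FAT

open Finset

/-- the vertex set -/
abbrev VW (r : ℕ) := Option (Fin r × Fin 4)

/-- the third vertex of the triangle containing the edge `v w` -/
def third {r : ℕ} : VW r → VW r → VW r
  | none, none => none
  | none, some (j, a) => some (j, if a = 0 then 1 else 0)
  | some (i, a), none => some (i, if a = 0 then 1 else 0)
  | some (i, a), some (_, b) =>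
      if (a = 0 ∧ b = 1) ∨ (a = 1 ∧ b = 0) then none
      else if (a = 0 ∧ b = 2) ∨ (a = 2 ∧ b = 0) then some (i, 3)
      else if (a = 0 ∧ b = 3) ∨ (a = 3 ∧ b = 0) then some (i, 2)
      else some (i, 0)

theorem third_spec {r : ℕ} (v w : VW r) (h : (W r).Adj v w) :
    (W r).Adj v (third v w) ∧ (W r).Adj w (third v w) ∧ third v (third v w) = w := by
  rcases v with _ | ⟨i, a⟩ <;> rcases w with _ | ⟨j, b⟩
  · exact absurd h (W r).irrefl
  · rw [adj_none_some] at h
    rcases h with rfl | rfl
    · refine ⟨?_, ?_, ?_⟩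
      · simp [third, adj_none_some]
      · simp only [third, if_true]
        rw [adj_some_some]
        exact ⟨rfl, by decide⟩
      · simp [third]
    · refine ⟨?_, ?_, ?_⟩
      · simp [third, adj_none_some]
      · simp only [third]
        rw [adj_some_some]
        exact ⟨rfl, by decide⟩
      · simp [third]
  · rw [adj_some_none] at h
    rcases h with rfl | rfl
    · refine ⟨?_, ?_, ?_⟩
      · simp only [third, if_true]
        rw [adj_some_some]
        exact ⟨rfl, by decide⟩
      · simp [third, adj_none_some]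
      · simp [third]
    · refine ⟨?_, ?_, ?_⟩
      · simp only [third]
        rw [adj_some_some]
        exact ⟨rfl, by decide⟩
      · simp [third, adj_none_some]
      · simp [third]
  · rw [adj_some_some] at h
    obtain ⟨rfl, h⟩ := h
    have key : ∀ a b : Fin 4, gadj a b = true →
        (a = 0 ∧ b = 1) ∨ (a = 1 ∧ b = 0) ∨ (a = 0 ∧ b = 2) ∨ (a = 2 ∧ b = 0) ∨
        (a = 0 ∧ b = 3) ∨ (a = 3 ∧ b = 0) ∨ (a = 2 ∧ b = 3) ∨ (a = 3 ∧ b = 2) := by decide
    rcases key a b h with ⟨rfl, rfl⟩ | ⟨rfl, rfl⟩ | ⟨rfl, rfl⟩ | ⟨rfl, rfl⟩ | ⟨rfl, rfl⟩ |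
      ⟨rfl, rfl⟩ | ⟨rfl, rfl⟩ | ⟨rfl, rfl⟩ <;>
    refine ⟨?_, ?_, ?_⟩ <;>
    simp [third, adj_some_some, adj_some_none, gadj]

/-- A proper colouring of `W r` with three colours is FAT. -/
theorem fat_of_proper {r : ℕ} (c : VW r → Fin 3) (hc : ∀ x y, (W r).Adj x y → c x ≠ c y) :
    IsFAT (W r) c := by
  refine ⟨1 / 2, by norm_num, by norm_num, fun v i => ⟨fun hvi => ?_, fun hvi => ?_⟩⟩
  · obtain ⟨j, hvj, hij⟩ : ∃ j, c v ≠ j ∧ i ≠ j := by
      generalize c v = x at *
      clear hc
      revert hvi
      revert x i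
      decide
    have h1 : e (W r) v {w | c w = i} = e (W r) v {w | c w = j} := by
      unfold e
      refine Set.ncard_congr (fun w _ => third v w) ?_ ?_ ?_
      · rintro w ⟨hw, hwi⟩
        obtain ⟨t1, t2, -⟩ := third_spec v w hw
        refine ⟨t1, ?_⟩
        have c1 := hc _ _ t1
        have c2 := hc _ _ t2
        have c3 := hc _ _ hw
        simp only [Set.mem_ofPred_eq] at hwi ⊢
        rw [hwi] at c2 c3
        generalize c v = x at *
        generalize c (third v w) = y at *
        omega
      · rintro w w' ⟨hw, -⟩ ⟨hw', -⟩ heq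
        rw [← (third_spec v w hw).2.2, heq, (third_spec v w' hw').2.2]
      · rintro w ⟨hw, hwj⟩
        obtain ⟨t1, t2, t3⟩ := third_spec v w hw
        refine ⟨third v w, ⟨t1, ?_⟩, t3⟩
        have c1 := hc _ _ t1
        have c2 := hc _ _ t2
        have c3 := hc _ _ hw
        simp only [Set.mem_ofPred_eq] at hwj ⊢
        rw [hwj] at c2 c3
        generalize c v = x at *
        generalize c (third v w) = y at *
        omega
    have h2 : deg (W r) v = e (W r) v {w | c w = i} + e (W r) v {w | c w = j} := by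
      unfold e deg
      rw [← Set.ncard_union_eq]
      · congr 1
        ext w
        simp only [Set.mem_ofPred_eq, Set.mem_union]
        constructor
        · intro hw
          have c3 := hc _ _ hw
          have : c w = i ∨ c w = j := by
            generalize c v = x at *
            generalize c w = y at *
            omega
          tauto
        · tauto
      · rw [Set.disjoint_left]
        rintro w ⟨-, h1⟩ ⟨-, h2⟩
        exact hij (h1.symm.trans h2)
    rw [h2, ← h1]
    push_cast
    ring
  · have h1 : e (W r) v {w | c w = i} = 0 := by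
      unfold e
      have : {w | (W r).Adj v w ∧ w ∈ {w | c w = i}} = ∅ := by
        ext w
        simp only [Set.mem_ofPred_eq, Set.mem_empty_iff_false, iff_false, not_and]
        intro hw hwi
        exact hc _ _ hw (hvi.trans hwi.symm)
      rw [this, Set.ncard_empty]
    rw [h1]
    norm_num

/-- the colours in a gadget given by two bits -/
def colv (p q : Bool) (a : Fin 4) : Fin 3 :=
  if a = 0 then (if p then 1 else 2)
  else if a = 1 then (if p then 2 else 1)
  else if a = 2 then (if q then 0 else if p then 2 else 1)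
  else (if q then (if p then 2 else 1) else 0)

/-- the colouring given by two families of bits -/
def col {r : ℕ} (ε δ : Fin r → Bool) : VW r → Fin 3
  | none => 0
  | some (i, a) => colv (ε i) (δ i) a

theorem colv_proper : ∀ (p q : Bool) (a b : Fin 4), gadj a b = true →
    colv p q a ≠ colv p q b := by decide

theorem colv_zero : ∀ (p q : Bool) (a : Fin 4), a = 0 ∨ a = 1 → colv p q a ≠ 0 := by decide

theorem colv_key : ∀ x0 x1 x2 x3 : Fin 3, 0 ≠ x0 → 0 ≠ x1 → x0 ≠ x1 → x0 ≠ x2 → x0 ≠ x3 →
    x2 ≠ x3 → x0 = colv (decide (x0 = 1)) (decide (x2 = 0)) 0 ∧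
      x1 = colv (decide (x0 = 1)) (decide (x2 = 0)) 1 ∧
      x2 = colv (decide (x0 = 1)) (decide (x2 = 0)) 2 ∧
      x3 = colv (decide (x0 = 1)) (decide (x2 = 0)) 3 := by decide

theorem col_proper {r : ℕ} (ε δ : Fin r → Bool) :
    ∀ x y, (W r).Adj x y → col ε δ x ≠ col ε δ y := by
  intro x y h
  rcases x with _ | ⟨i, a⟩ <;> rcases y with _ | ⟨j, b⟩
  · exact absurd h (W r).irrefl
  · rw [adj_none_some] at h
    exact (colv_zero _ _ _ h).symm
  · rw [adj_some_none] at h
    exact colv_zero _ _ _ h
  · rw [adj_some_some] at h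
    obtain ⟨rfl, h⟩ := h
    exact colv_proper _ _ _ _ h

/-- Up to a permutation of the colours, every proper colouring is one of these. -/
theorem exists_col {r : ℕ} (c : VW r → Fin 3) (hc : ∀ x y, (W r).Adj x y → c x ≠ c y)
    (h0 : c none = 0) :
    c = col (fun i => decide (c (some (i, 0)) = 1)) (fun i => decide (c (some (i, 2)) = 0)) := by
  funext x
  rcases x with _ | ⟨i, a⟩
  · exact h0
  · have a1 := hc none (some (i, 0)) (by simp [adj_none_some])
    have a2 := hc none (some (i, 1)) (by simp [adj_none_some])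
    have a3 := hc (some (i, 0)) (some (i, 1)) (by rw [adj_some_some]; exact ⟨rfl, by decide⟩)
    have a4 := hc (some (i, 0)) (some (i, 2)) (by rw [adj_some_some]; exact ⟨rfl, by decide⟩)
    have a5 := hc (some (i, 0)) (some (i, 3)) (by rw [adj_some_some]; exact ⟨rfl, by decide⟩)
    have a6 := hc (some (i, 2)) (some (i, 3)) (by rw [adj_some_some]; exact ⟨rfl, by decide⟩)
    rw [h0] at a1 a2
    obtain ⟨k0, k1, k2, k3⟩ := colv_key _ _ _ _ a1 a2 a3 a4 a5 a6
    have ha : a = 0 ∨ a = 1 ∨ a = 2 ∨ a = 3 := by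
      clear k0 k1 k2 k3
      revert a
      decide
    rcases ha with rfl | rfl | rfl | rfl
    · exact k0
    · exact k1
    · exact k2
    · exact k3

theorem ker_le_of_proper {r : ℕ} (hr : 1 ≤ r) (c c' : VW r → Fin 3)
    (hc : ∀ x y, (W r).Adj x y → c x ≠ c y) (hc' : ∀ x y, (W r).Adj x y → c' x ≠ c' y)
    (h : ∀ x y, c' x = c' y → c x = c y) : ∀ x y, c x = c y → c' x = c' y := by
  obtain ⟨i⟩ : Nonempty (Fin r) := ⟨⟨0, hr⟩⟩
  have a1 := hc none (some (i, 0)) (by simp [adj_none_some])
  have a2 := hc none (some (i, 1)) (by simp [adj_none_some])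
  have a3 := hc (some (i, 0)) (some (i, 1)) (by rw [adj_some_some]; exact ⟨rfl, by decide⟩)
  have b1 := hc' none (some (i, 0)) (by simp [adj_none_some])
  have b2 := hc' none (some (i, 1)) (by simp [adj_none_some])
  have b3 := hc' (some (i, 0)) (some (i, 1)) (by rw [adj_some_some]; exact ⟨rfl, by decide⟩)
  intro x y hxy
  have hx1 := h x none
  have hx2 := h x (some (i, 0))
  have hx3 := h x (some (i, 1))
  have hy1 := h y none
  have hy2 := h y (some (i, 0))
  have hy3 := h y (some (i, 1))
  generalize c x = cx at *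
  generalize c y = cy at *
  generalize c' x = dx at *
  generalize c' y = dy at *
  generalize c none = p0 at *
  generalize c (some (i, 0)) = p1 at *
  generalize c (some (i, 1)) = p2 at *
  generalize c' none = q0 at *
  generalize c' (some (i, 0)) = q1 at *
  generalize c' (some (i, 1)) = q2 at *
  clear h hc hc'
  omega

/-- The irreducible FAT partitions are those given by the proper 3-colourings. -/
theorem irred_iff {r : ℕ} (hr : 1 ≤ r) (s : Setoid (VW r)) :
    Irred (W r) s ↔ ∃ c : VW r → Fin 3, (∀ x y, (W r).Adj x y → c x ≠ c y) ∧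
      ∀ x y, s x y ↔ c x = c y := by
  constructor
  · rintro ⟨⟨k, c, hc, hs⟩, hmax⟩
    rcases fat_cases hr c hc with hconst | ⟨rfl, hproper⟩
    · exfalso
      have hp := col_proper (r := r) (fun _ => true) (fun _ => true)
      have h1 := hmax (Setoid.ker (col (fun _ => true) (fun _ => true)))
        ⟨3, _, fat_of_proper _ hp, fun x y => Iff.rfl⟩ (fun x y _ => (hs x y).2 (hconst x y))
      obtain ⟨i⟩ : Nonempty (Fin r) := ⟨⟨0, hr⟩⟩
      have h2 : (W r).Adj none (some (i, 0)) := by simp [adj_none_some]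
      exact hp _ _ h2 (h1 _ _ ((hs _ _).2 (hconst _ _)))
    · exact ⟨c, hproper, hs⟩
  · rintro ⟨c, hc, hs⟩
    refine ⟨⟨3, c, fat_of_proper c hc, hs⟩, ?_⟩
    rintro t ⟨k, c', hc', ht⟩ hts x y hxy
    rcases fat_cases hr c' hc' with hconst | ⟨rfl, hproper⟩
    · exfalso
      obtain ⟨i⟩ : Nonempty (Fin r) := ⟨⟨0, hr⟩⟩
      have h2 : (W r).Adj none (some (i, 0)) := by simp [adj_none_some]
      exact hc _ _ h2 ((hs _ _).1 (hts _ _ ((ht _ _).2 (hconst _ _))))
    · rw [ht]
      refine ker_le_of_proper hr c c' hc hproper (fun x y h => ?_) x y ((hs _ _).1 hxy)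
      exact (hs _ _).1 (hts _ _ ((ht _ _).2 h))

end Pool.Agent.N455.FAT
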