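import Mathlib

/-!
# FAT colourings and irreducible FAT colourings (definitions)
-/

set_option autoImplicit false

namespace Pool.Agent.N455.FAT

variable {V : Type}

/-- `e(v, S)`: the number of neighbours of `v` lying in `S`. -/
noncomputable def e (G : SimpleGraph V) (v : V) (S : Set V) : ℕ := {w | G.Adj v w ∧ w ∈ S}.ncard

/-- The degree of `v`. -/
noncomputable def deg (G : SimpleGraph V) (v : V) : ℕ := {w | G.Adj v w}.ncard

/-- The `k`-colouring `c` (an arbitrary map to the `k` colours) is fair and tolerant: for some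
`α ∈ [0, 1]` and `β = 1 - (k - 1) α`, every vertex `v` and every colour `i` satisfy
`e(v, V_i) = α deg v` if `v ∉ V_i` and `e(v, V_i) = β deg v` if `v ∈ V_i`, where `V_i` is the
colour class of `i`. -/
def IsFAT (G : SimpleGraph V) {k : ℕ} (c : V → Fin k) : Prop :=
  ∃ α : ℝ, 0 ≤ α ∧ α ≤ 1 ∧ ∀ (v : V) (i : Fin k),
    (c v ≠ i → (e G v {w | c w = i} : ℝ) = α * deg G v) ∧
    (c v = i → (e G v {w | c w = i} : ℝ) = (1 - ((k : ℝ) - 1) * α) * deg G v)

/-- `s` is the partition of the vertex set into the nonempty colour classes of a FAT colouring. -/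
def IsFATPartition (G : SimpleGraph V) (s : Setoid V) : Prop :=
  ∃ (k : ℕ) (c : V → Fin k), IsFAT G c ∧ ∀ x y, s x y ↔ c x = c y

/-- A FAT partition is irreducible if there is no finer FAT partition. -/
def Irred (G : SimpleGraph V) (s : Setoid V) : Prop :=
  IsFATPartition G s ∧
    ∀ t : Setoid V, IsFATPartition G t → (∀ x y, t x y → s x y) → ∀ x y, s x y → t x y

/-- Two irreducible FAT partitions are regarded as equal if some automorphism of the graph maps one
onto the other. -/
def autSetoid (G : SimpleGraph V) : Setoid {s : Setoid V // Irred G s} where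
  r s t := ∃ φ : G ≃g G, ∀ x y, s.1 x y ↔ t.1 (φ x) (φ y)
  iseqv :=
    { refl := fun s => ⟨SimpleGraph.Iso.refl, fun _ _ => Iff.rfl⟩
      symm := by
        rintro s t ⟨φ, h⟩
        refine ⟨φ.symm, fun x y => ?_⟩
        rw [h]
        simp
      trans := by
        rintro s t u ⟨φ, h⟩ ⟨ψ, h'⟩
        refine ⟨φ.trans ψ, fun x y => ?_⟩
        rw [h, h']
        rfl }

/-- The number of irreducible FAT colourings of `G`, counted up to automorphisms of `G`. -/
noncomputable def numIrred (G : SimpleGraph V) : ℕ := Nat.card (Quotient (autSetoid G))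

end Pool.Agent.N455.FAT
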