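import Pool.Agent.N455.FAT.Defs

/-!
# Connected graphs with exactly `b` irreducible FAT colourings

The graph `W r`: `r` copies of a gadget glued at one vertex `none`. The `i`-th gadget has the
vertices `(i, 0), …, (i, 3)` and consists of the triangle `none, (i, 0), (i, 1)` and of the triangle
`(i, 0), (i, 2), (i, 3)`.
-/

set_option autoImplicit false

namespace Pool.Agent.N455.FAT

open Finset

/-- adjacency inside a gadget -/
def gadj (a b : Fin 4) : Bool :=
  (a == 0 && b != 0) || (b == 0 && a != 0) || (a == 2 && b == 3) || (a == 3 && b == 2)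

theorem gadj_symm : ∀ a b : Fin 4, gadj a b = true → gadj b a = true := by decide

theorem gadj_irrefl : ∀ a : Fin 4, ¬ gadj a a = true := by decide

/-- adjacency -/
def wadj {r : ℕ} : Option (Fin r × Fin 4) → Option (Fin r × Fin 4) → Bool
  | none, none => false
  | none, some (_, a) => a == 0 || a == 1
  | some (_, a), none => a == 0 || a == 1
  | some (i, a), some (j, b) => i == j && gadj a b

/-- the graph -/
def W (r : ℕ) : SimpleGraph (Option (Fin r × Fin 4)) where
  Adj x y := wadj x y = true
  symm := by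
    constructor
    intro x y h
    rcases x with _ | ⟨i, a⟩ <;> rcases y with _ | ⟨j, b⟩
    · exact h
    · exact h
    · exact h
    · simp only [wadj, Bool.and_eq_true, beq_iff_eq] at h ⊢
      exact ⟨h.1.symm, gadj_symm _ _ h.2⟩
  loopless := by
    constructor
    intro x h
    rcases x with _ | ⟨i, a⟩
    · simp [wadj] at h
    · simp only [wadj, Bool.and_eq_true, beq_iff_eq] at h
      exact gadj_irrefl _ h.2

theorem adj_none_some {r : ℕ} (i : Fin r) (a : Fin 4) :
    (W r).Adj none (some (i, a)) ↔ a = 0 ∨ a = 1 := by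
  simp [W, wadj]

theorem adj_some_none {r : ℕ} (i : Fin r) (a : Fin 4) :
    (W r).Adj (some (i, a)) none ↔ a = 0 ∨ a = 1 := by
  simp [W, wadj]

theorem adj_some_some {r : ℕ} (i j : Fin r) (a b : Fin 4) :
    (W r).Adj (some (i, a)) (some (j, b)) ↔ i = j ∧ gadj a b = true := by
  simp [W, wadj]

theorem connected (r : ℕ) : (W r).Connected := by
  have h0 : ∀ i : Fin r, (W r).Reachable none (some (i, 0)) := fun i =>
    SimpleGraph.Adj.reachable ((adj_none_some i 0).2 (Or.inl rfl))
  have h1 : ∀ x, (W r).Reachable none x := by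
    intro x
    rcases x with _ | ⟨i, a⟩
    · exact SimpleGraph.Reachable.refl _
    · by_cases ha : a = 0
      · subst ha
        exact h0 i
      · refine (h0 i).trans (SimpleGraph.Adj.reachable ?_)
        rw [adj_some_some]
        refine ⟨rfl, ?_⟩
        revert ha
        revert a
        decide
  rw [SimpleGraph.connected_iff_exists_forall_reachable]
  exact ⟨none, h1⟩

/-! ### Neighbour counts -/

theorem e_finset {V : Type} (G : SimpleGraph V) (v : V) (F : Finset V)
    (h : ∀ w, G.Adj v w ↔ w ∈ F) (S : Set V) [DecidablePred (· ∈ S)] :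
    e G v S = (F.filter (· ∈ S)).card := by
  unfold e
  have : {w | G.Adj v w ∧ w ∈ S} = ((F.filter (· ∈ S) : Finset V) : Set V) := by
    ext w
    simp [h]
  rw [this, Set.ncard_coe_finset]

theorem e_univ {V : Type} (G : SimpleGraph V) (v : V) : e G v Set.univ = deg G v := by
  unfold e deg
  simp

/-- the neighbours of a vertex with exactly two neighbours -/
theorem e_two {V : Type} (G : SimpleGraph V) (v x y : V) (hxy : x ≠ y)
    (h : ∀ w, G.Adj v w ↔ w = x ∨ w = y) (S : Set V) [DecidablePred (· ∈ S)] :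
    e G v S = (if x ∈ S then 1 else 0) + (if y ∈ S then 1 else 0) := by
  classical
  unfold e
  have : {w | G.Adj v w ∧ w ∈ S} = ((({x, y} : Finset V).filter (· ∈ S) : Finset V) : Set V) := by
    ext w
    simp [h]
  rw [this, Set.ncard_coe_finset, Finset.filter_insert, Finset.filter_singleton]
  split_ifs <;> simp_all

theorem deg_two {V : Type} (G : SimpleGraph V) (v x y : V) (hxy : x ≠ y)
    (h : ∀ w, G.Adj v w ↔ w = x ∨ w = y) : deg G v = 2 := by
  classical
  have h1 := e_two G v x y hxy h Set.univ
  have h2 : e G v Set.univ = deg G v := by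
    unfold e deg
    simp
  rw [← h2, h1]
  simp

theorem nb1 {r : ℕ} (i : Fin r) (w : Option (Fin r × Fin 4)) :
    (W r).Adj (some (i, 1)) w ↔ w = none ∨ w = some (i, 0) := by
  rcases w with _ | ⟨j, b⟩
  · simp [adj_some_none]
  · rw [adj_some_some]
    simp only [reduceCtorEq, Option.some.injEq, Prod.mk.injEq, false_or]
    have : gadj 1 b = true ↔ b = 0 := by
      revert b
      decide
    rw [this]
    tauto

theorem nb2 {r : ℕ} (i : Fin r) (w : Option (Fin r × Fin 4)) :
    (W r).Adj (some (i, 2)) w ↔ w = some (i, 0) ∨ w = some (i, 3) := by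
  rcases w with _ | ⟨j, b⟩
  · simp [adj_some_none]
  · rw [adj_some_some]
    simp only [Option.some.injEq, Prod.mk.injEq]
    have : gadj 2 b = true ↔ (b = 0 ∨ b = 3) := by
      revert b
      decide
    rw [this]
    tauto

theorem nb3 {r : ℕ} (i : Fin r) (w : Option (Fin r × Fin 4)) :
    (W r).Adj (some (i, 3)) w ↔ w = some (i, 0) ∨ w = some (i, 2) := by
  rcases w with _ | ⟨j, b⟩
  · simp [adj_some_none]
  · rw [adj_some_some]
    simp only [Option.some.injEq, Prod.mk.injEq]
    have : gadj 3 b = true ↔ (b = 0 ∨ b = 2) := by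
      revert b
      decide
    rw [this]
    tauto

theorem nb0 {r : ℕ} (i : Fin r) (w : Option (Fin r × Fin 4)) :
    (W r).Adj (some (i, 0)) w ↔
      w ∈ ({none, some (i, 1), some (i, 2), some (i, 3)} : Finset (Option (Fin r × Fin 4))) := by
  simp only [Finset.mem_insert, Finset.mem_singleton]
  rcases w with _ | ⟨j, b⟩
  · simp [adj_some_none]
  · rw [adj_some_some]
    simp only [reduceCtorEq, Option.some.injEq, Prod.mk.injEq, false_or]
    have : gadj 0 b = true ↔ (b = 1 ∨ b = 2 ∨ b = 3) := by
      revert b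
      decide
    rw [this]
    tauto

theorem e_nb0 {r : ℕ} (i : Fin r) (S : Set (Option (Fin r × Fin 4))) [DecidablePred (· ∈ S)] :
    e (W r) (some (i, 0)) S = (if none ∈ S then 1 else 0) + (if some (i, 1) ∈ S then 1 else 0) +
      (if some (i, 2) ∈ S then 1 else 0) + (if some (i, 3) ∈ S then 1 else 0) := by
  rw [e_finset (W r) _ _ (nb0 i) S, Finset.card_filter, Finset.sum_insert, Finset.sum_insert,
    Finset.sum_insert, Finset.sum_singleton]
  · ring
  · simp
  · simp
  · simp

theorem e_two_col {V C : Type} [DecidableEq C] (G : SimpleGraph V) (v x y : V) (hxy : x ≠ y)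
    (h : ∀ w, G.Adj v w ↔ w = x ∨ w = y) (c : V → C) (i : C) :
    e G v {w | c w = i} = (if c x = i then 1 else 0) + (if c y = i then 1 else 0) := by
  have hd : DecidablePred (· ∈ {w | c w = i}) := fun w => decEq (c w) i
  rw [e_two G v x y hxy h]
  congr

theorem e_nb0_col {r : ℕ} {C : Type} [DecidableEq C] (i : Fin r)
    (c : Option (Fin r × Fin 4) → C) (j : C) :
    e (W r) (some (i, 0)) {w | c w = j} = (if c none = j then 1 else 0) +
      (if c (some (i, 1)) = j then 1 else 0) +
      (if c (some (i, 2)) = j then 1 else 0) + (if c (some (i, 3)) = j then 1 else 0) := by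
  have hd : DecidablePred (· ∈ {w | c w = j}) := fun w => decEq (c w) j
  rw [e_nb0]
  congr

theorem deg_nb0 {r : ℕ} (i : Fin r) : deg (W r) (some (i, 0)) = 4 := by
  classical
  rw [← e_univ, e_nb0]
  simp

theorem e_pos {V : Type} [Finite V] (G : SimpleGraph V) {v w : V} {S : Set V} (h : G.Adj v w)
    (hw : w ∈ S) : 0 < e G v S := by
  unfold e
  rw [Set.ncard_pos (Set.toFinite _)]
  exact ⟨w, h, hw⟩

theorem const_of_adj {V C : Type} {G : SimpleGraph V} (hG : G.Connected) {c : V → C}
    (h : ∀ x y, G.Adj x y → c x = c y) : ∀ x y, c x = c y := by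
  intro x y
  obtain ⟨p⟩ := hG.preconnected x y
  induction p with
  | nil => rfl
  | cons hadj _ ih => rw [h _ _ hadj, ih]

/-- A FAT colouring is constant or a proper colouring with three colours. -/
theorem fat_cases {r k : ℕ} (hr : 1 ≤ r) (c : Option (Fin r × Fin 4) → Fin k)
    (hc : IsFAT (W r) c) :
    (∀ x y, c x = c y) ∨ (k = 3 ∧ ∀ x y, (W r).Adj x y → c x ≠ c y) := by
  classical
  by_cases hconst : ∀ x y, c x = c y
  · exact Or.inl hconst
  right
  obtain ⟨α, h0, h1, h⟩ := hc
  have hα : α ≠ 0 := by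
    intro hα
    apply hconst
    apply const_of_adj (connected r)
    intro x y hxy
    by_contra hne
    have h2 := (h x (c y)).1 hne
    rw [hα, zero_mul] at h2
    have h3 := e_pos (W r) (S := {w | c w = c y}) hxy rfl
    have h4 : e (W r) x {w | c w = c y} = 0 := by exact_mod_cast h2
    omega
  have hαpos : 0 < α := lt_of_le_of_ne h0 (Ne.symm hα)
  -- the vertex `p'`
  obtain ⟨i⟩ : Nonempty (Fin r) := ⟨⟨0, hr⟩⟩
  have d2 : deg (W r) (some (i, 2)) = 2 := deg_two _ _ _ _ (by simp) (nb2 i)
  have e2 := e_two_col (W r) (some (i, 2)) _ _ (by simp) (nb2 i) c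
  have d3 : deg (W r) (some (i, 3)) = 2 := deg_two _ _ _ _ (by simp) (nb3 i)
  have e3 := e_two_col (W r) (some (i, 3)) _ _ (by simp) (nb3 i) c
  have d1 : deg (W r) (some (i, 1)) = 2 := deg_two _ _ _ _ (by simp) (nb1 i)
  have e1 := e_two_col (W r) (some (i, 1)) _ _ (by simp) (nb1 i) c
  have hown : 0 ≤ (1 - ((k : ℝ) - 1) * α) := by
    have h2 := (h (some (i, 2)) (c (some (i, 2)))).2 rfl
    rw [d2] at h2
    have h3 : (0 : ℝ) ≤ (e (W r) (some (i, 2)) {w | c w = c (some (i, 2))} : ℝ) := Nat.cast_nonneg _
    push_cast at h2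
    linarith
  obtain ⟨j, hj⟩ : ∃ j, c (some (i, 2)) ≠ j := by
    by_contra hcon
    push Not at hcon
    apply hconst
    intro x y
    rw [← hcon (c x), hcon (c y)]
  have hα2 : α = 1 / 2 ∨ α = 1 := by
    have h2 := (h (some (i, 2)) j).1 hj
    rw [d2, e2] at h2
    split_ifs at h2 <;> push_cast at h2
    · right; linarith
    · left; linarith
    · left; linarith
    · exfalso; linarith
  have hk2 : 2 ≤ k := by
    have h2 := (c (some (i, 2))).isLt
    have h3 := j.isLt
    by_contra hlt
    apply hj
    apply Fin.ext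
    omega
  have hproper : (1 - ((k : ℝ) - 1) * α) = 0 → ∀ x y, (W r).Adj x y → c x ≠ c y := by
    intro hβ x y hxy hxy'
    have h2 := (h x (c y)).2 hxy'
    rw [hβ, zero_mul] at h2
    have h3 := e_pos (W r) (S := {w | c w = c y}) hxy rfl
    have h4 : e (W r) x {w | c w = c y} = 0 := by exact_mod_cast h2
    omega
  rcases hα2 with hα2 | hα2
  · have hk3 : k ≤ 3 := by
      rw [hα2] at hown
      have : (k : ℝ) ≤ 3 := by linarith
      exact_mod_cast this
    rcases Nat.lt_or_ge k 3 with hlt | hge
    · exfalso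
      have hk : k = 2 := by omega
      subst hk
      have hβ : (1 - (((2 : ℕ) : ℝ) - 1) * α) = 1 / 2 := by
        rw [hα2]
        norm_num
      have a2 := (h (some (i, 2)) (c (some (i, 2)))).2 rfl
      have a3 := (h (some (i, 3)) (c (some (i, 3)))).2 rfl
      have a1 := (h (some (i, 1)) (c (some (i, 1)))).2 rfl
      have a0 := (h (some (i, 0)) (c (some (i, 0)))).2 rfl
      rw [hβ, d2, e2] at a2
      rw [hβ, d3, e3] at a3
      rw [hβ, d1, e1] at a1
      rw [hβ, deg_nb0, e_nb0_col] at a0
      clear e1 e2 e3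
      generalize c (some (i, 0)) = x0 at *
      generalize c (some (i, 1)) = x1 at *
      generalize c (some (i, 2)) = x2 at *
      generalize c (some (i, 3)) = x3 at *
      generalize c none = x4 at *
      have b2 : (if x0 = x2 then 1 else 0) + (if x3 = x2 then 1 else 0) = 1 := by
        have : (((if x0 = x2 then 1 else 0) + (if x3 = x2 then 1 else 0) : ℕ) : ℝ) = (1 : ℕ) := by
          rw [a2]; norm_num
        exact_mod_cast this
      have b3 : (if x0 = x3 then 1 else 0) + (if x2 = x3 then 1 else 0) = 1 := by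
        have : (((if x0 = x3 then 1 else 0) + (if x2 = x3 then 1 else 0) : ℕ) : ℝ) = (1 : ℕ) := by
          rw [a3]; norm_num
        exact_mod_cast this
      have b1 : (if x4 = x1 then 1 else 0) + (if x0 = x1 then 1 else 0) = 1 := by
        have : (((if x4 = x1 then 1 else 0) + (if x0 = x1 then 1 else 0) : ℕ) : ℝ) = (1 : ℕ) := by
          rw [a1]; norm_num
        exact_mod_cast this
      have b0 : (if x4 = x0 then 1 else 0) + (if x1 = x0 then 1 else 0) +
          (if x2 = x0 then 1 else 0) + (if x3 = x0 then 1 else 0) = 2 := by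
        have : (((if x4 = x0 then 1 else 0) + (if x1 = x0 then 1 else 0) +
          (if x2 = x0 then 1 else 0) + (if x3 = x0 then 1 else 0) : ℕ) : ℝ) = (2 : ℕ) := by
          rw [a0]; norm_num
        exact_mod_cast this
      clear a0 a1 a2 a3 h hconst hj hproper
      revert b0 b1 b2 b3
      revert x0 x1 x2 x3 x4
      decide
    · have hk : k = 3 := by omega
      refine ⟨hk, hproper ?_⟩
      rw [hα2, hk]
      norm_num
  · exfalso
    have hk : k = 2 := by
      rw [hα2] at hown
      have : (k : ℝ) ≤ 2 := by linarith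
      have : k ≤ 2 := by exact_mod_cast this
      omega
    subst hk
    have hp := hproper (by rw [hα2]; norm_num)
    have p1 := hp (some (i, 0)) (some (i, 2)) (by rw [adj_some_some]; exact ⟨rfl, by decide⟩)
    have p2 := hp (some (i, 0)) (some (i, 3)) (by rw [adj_some_some]; exact ⟨rfl, by decide⟩)
    have p3 := hp (some (i, 2)) (some (i, 3)) (by rw [adj_some_some]; exact ⟨rfl, by decide⟩)
    omega

end Pool.Agent.N455.FAT
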