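import Pool.Agent.N455.FAT.Count

/-!
# The orbits of the irreducible FAT colourings of `W (2 b - 1)`
-/

set_option autoImplicit false

namespace Pool.Agent.N455.FAT

open Finset

/-- number of pairs of equivalent elements -/
noncomputable def numPairs {V : Type} (s : Setoid V) : ℕ := Nat.card {p : V × V // s p.1 p.2}

theorem numPairs_congr {V : Type} {G : SimpleGraph V} (s t : {s : Setoid V // Irred G s})
    (h : (autSetoid G) s t) : numPairs s.1 = numPairs t.1 := by
  obtain ⟨φ, hφ⟩ := h
  unfold numPairs
  refine Nat.card_congr (Equiv.subtypeEquiv (Equiv.prodCongr φ.toEquiv φ.toEquiv) ?_)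
  rintro ⟨x, y⟩
  exact hφ x y

theorem numPairs_ker {V C : Type} [Fintype V] [Fintype C] [DecidableEq C] (c : V → C)
    (s : Setoid V) (hs : ∀ x y, s x y ↔ c x = c y) :
    numPairs s = ∑ x : C, (∑ v : V, if c v = x then 1 else 0) ^ 2 := by
  classical
  unfold numPairs
  have h1 : Nat.card {p : V × V // s p.1 p.2} = Nat.card {p : V × V // c p.1 = c p.2} := by
    refine Nat.card_congr (Equiv.subtypeEquiv (Equiv.refl _) ?_)
    rintro ⟨x, y⟩
    exact hs x y
  rw [h1, Nat.card_eq_fintype_card, Fintype.card_subtype, Finset.card_filter,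
    Fintype.sum_prod_type]
  have h2 : ∀ v w : V, (if c v = c w then 1 else 0) =
      ∑ x : C, (if c v = x then 1 else 0) * (if c w = x then 1 else 0) := by
    intro v w
    rw [Finset.sum_eq_single (c v)]
    · simp [eq_comm]
    · intro x _ hx
      rw [if_neg (Ne.symm hx), zero_mul]
    · intro h
      exact absurd (Finset.mem_univ _) h
  simp_rw [h2]
  have h3 : ∀ v : V, ∑ w : V, ∑ x : C, (if c v = x then 1 else 0) * (if c w = x then 1 else 0) =
      ∑ x : C, ∑ w : V, (if c v = x then 1 else 0) * (if c w = x then 1 else 0) := fun v =>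
    Finset.sum_comm
  simp_rw [h3]
  rw [Finset.sum_comm]
  refine Finset.sum_congr rfl fun x _ => ?_
  simp_rw [← Finset.mul_sum]
  rw [← Finset.sum_mul, sq]

/-- the number of `i` with `ε i = true` -/
def cnt {r : ℕ} (ε : Fin r → Bool) : ℕ := (univ.filter (fun i => ε i = true)).card

theorem sum_one {r : ℕ} (ε δ : Fin r → Bool) :
    (∑ v : VW r, if col ε δ v = 1 then 1 else 0) + cnt ε = 2 * r := by
  rw [Fintype.sum_option, Fintype.sum_prod_type]
  have h : ∀ i : Fin r, ∑ a : Fin 4, (if col ε δ (some (i, a)) = 1 then 1 else 0) =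
      if ε i then 1 else 2 := by
    intro i
    have : ∀ p q : Bool, ∑ a : Fin 4, (if colv p q a = 1 then 1 else 0) = if p then 1 else 2 := by
      decide
    exact this (ε i) (δ i)
  rw [Finset.sum_congr rfl (fun i _ => h i)]
  unfold cnt
  rw [Finset.card_filter, add_assoc, ← Finset.sum_add_distrib]
  have h2 : ∀ i : Fin r, ((if ε i = true then 1 else 2) + (if ε i = true then 1 else 0) : ℕ) = 2 := by
    intro i
    cases ε i <;> rfl
  rw [Finset.sum_congr rfl (fun i _ => h2 i)]
  simp [col, mul_comm]

theorem sum_two {r : ℕ} (ε δ : Fin r → Bool) :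
    (∑ v : VW r, if col ε δ v = 2 then 1 else 0) = r + cnt ε := by
  rw [Fintype.sum_option, Fintype.sum_prod_type]
  have h : ∀ i : Fin r, ∑ a : Fin 4, (if col ε δ (some (i, a)) = 2 then 1 else 0) =
      1 + if ε i then 1 else 0 := by
    intro i
    have : ∀ p q : Bool, ∑ a : Fin 4, (if colv p q a = 2 then 1 else 0) =
        1 + if p then 1 else 0 := by
      decide
    exact this (ε i) (δ i)
  rw [Finset.sum_congr rfl (fun i _ => h i), Finset.sum_add_distrib]
  unfold cnt
  rw [Finset.card_filter]
  simp [col]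

theorem sum_zero {r : ℕ} (ε δ : Fin r → Bool) :
    (∑ v : VW r, if col ε δ v = 0 then 1 else 0) = r + 1 := by
  rw [Fintype.sum_option, Fintype.sum_prod_type]
  have h : ∀ i : Fin r, ∑ a : Fin 4, (if col ε δ (some (i, a)) = 0 then 1 else 0) = 1 := by
    intro i
    have : ∀ p q : Bool, ∑ a : Fin 4, (if colv p q a = 0 then 1 else 0) = 1 := by
      decide
    exact this (ε i) (δ i)
  rw [Finset.sum_congr rfl (fun i _ => h i)]
  simp [col, add_comm]

theorem numPairs_col {r : ℕ} (ε δ : Fin r → Bool) (s : Setoid (VW r))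
    (hs : ∀ x y, s x y ↔ col ε δ x = col ε δ y) :
    (numPairs s : ℤ) = (r + 1) ^ 2 + (2 * r - cnt ε) ^ 2 + (r + cnt ε) ^ 2 := by
  rw [numPairs_ker (col ε δ) s hs, Fin.sum_univ_three, sum_zero, sum_two]
  have h1 := sum_one ε δ
  have h2 : (((∑ v : VW r, if col ε δ v = 1 then 1 else 0 : ℕ)) : ℤ) = 2 * r - cnt ε := by
    omega
  push_cast at h2 ⊢
  rw [h2]

/-- the permutation of a gadget -/
def tau (q q' : Bool) : Equiv.Perm (Fin 4) := if q = q' then 1 else Equiv.swap 2 3

theorem tau_gadj : ∀ (q q' : Bool) (a b : Fin 4), gadj (tau q q' a) (tau q q' b) = gadj a b := by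
  decide

theorem tau_col : ∀ (p q q' : Bool) (a : Fin 4), colv p q' (tau q q' a) = colv p q a := by
  decide

theorem tau_low : ∀ (q q' : Bool) (a : Fin 4), (tau q q' a = 0 ∨ tau q q' a = 1) ↔
    (a = 0 ∨ a = 1) := by
  decide

/-- the automorphism -/
def auto {r : ℕ} (σ : Equiv.Perm (Fin r)) (τ : Fin r → Bool × Bool) : W r ≃g W r where
  toEquiv := Equiv.optionCongr (Equiv.prodShear σ (fun i => tau (τ i).1 (τ i).2))
  map_rel_iff' := by
    intro x y
    rcases x with _ | ⟨i, a⟩ <;> rcases y with _ | ⟨j, b⟩
    · exact Iff.rfl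
    · change (W r).Adj none (some (σ j, tau _ _ b)) ↔ _
      rw [adj_none_some, adj_none_some, tau_low]
    · change (W r).Adj (some (σ i, tau _ _ a)) none ↔ _
      rw [adj_some_none, adj_some_none, tau_low]
    · change (W r).Adj (some (σ i, tau _ _ a)) (some (σ j, tau _ _ b)) ↔ _
      rw [adj_some_some, adj_some_some, σ.injective.eq_iff]
      constructor
      · rintro ⟨rfl, h⟩
        rw [tau_gadj] at h
        exact ⟨rfl, h⟩
      · rintro ⟨rfl, h⟩
        rw [tau_gadj]
        exact ⟨rfl, h⟩

theorem exists_perm {r : ℕ} (ε ε' : Fin r → Bool) (h : cnt ε = cnt ε') :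
    ∃ σ : Equiv.Perm (Fin r), ∀ i, ε' (σ i) = ε i := by
  classical
  have h1 : Fintype.card {i // ε i = true} = Fintype.card {i // ε' i = true} := by
    rw [Fintype.card_subtype, Fintype.card_subtype]
    exact h
  have h2 : Fintype.card {i // ¬ ε i = true} = Fintype.card {i // ¬ ε' i = true} :=
    Fintype.card_compl_eq_card_compl _ _ h1
  refine ⟨Equiv.subtypeCongr (Fintype.equivOfCardEq h1) (Fintype.equivOfCardEq h2), fun i => ?_⟩
  by_cases hi : ε i = true
  · rw [Equiv.subtypeCongr]
    simp only [Equiv.trans_apply]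
    rw [Equiv.sumCompl_symm_apply_of_pos (p := fun x => ε x = true) hi]
    simp only [Equiv.sumCongr_apply, Sum.map_inl, Equiv.sumCompl_apply_inl]
    rw [hi]
    exact (Fintype.equivOfCardEq h1 ⟨i, hi⟩).2
  · rw [Equiv.subtypeCongr]
    simp only [Equiv.trans_apply]
    rw [Equiv.sumCompl_symm_apply_of_neg (p := fun x => ε x = true) hi]
    simp only [Equiv.sumCongr_apply, Sum.map_inr, Equiv.sumCompl_apply_inr]
    have h3 := (Fintype.equivOfCardEq h2 ⟨i, hi⟩).2
    rw [Bool.not_eq_true] at hi h3
    rw [hi]
    exact h3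

theorem exists_auto {r : ℕ} (ε δ ε' δ' : Fin r → Bool) (h : cnt ε = cnt ε') :
    ∃ φ : W r ≃g W r, ∀ x, col ε' δ' (φ x) = col ε δ x := by
  obtain ⟨σ, hσ⟩ := exists_perm ε ε' h
  refine ⟨auto σ (fun i => (δ i, δ' (σ i))), fun x => ?_⟩
  rcases x with _ | ⟨i, a⟩
  · rfl
  · change colv (ε' (σ i)) (δ' (σ i)) (tau (δ i) (δ' (σ i)) a) = colv (ε i) (δ i) a
    rw [tau_col, hσ]

/-- the first `j` bits are true -/
def first {r : ℕ} (j : ℕ) : Fin r → Bool := fun i => decide (i.val < j)

theorem cnt_first {r j : ℕ} (h : j ≤ r) : cnt (first (r := r) j) = j := by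
  unfold cnt first
  simp only [decide_eq_true_eq]
  have h1 : (univ.filter (fun i : Fin r => i.val < j)).card = (Finset.range j).card := by
    refine Finset.card_bij (fun i _ => i.val) ?_ ?_ ?_
    · intro i hi
      rw [mem_filter] at hi
      exact mem_range.2 hi.2
    · intro i _ i' _ h
      exact Fin.ext h
    · intro k hk
      rw [mem_range] at hk
      exact ⟨⟨k, by omega⟩, by simp [hk], rfl⟩
  rw [h1, card_range]

theorem main (b : ℕ) (hb : 1 ≤ b) : numIrred (W (2 * b - 1)) = b := by
  classical
  have hr : 1 ≤ 2 * b - 1 := by omega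
  let st : Fin b → {s : Setoid (VW (2 * b - 1)) // Irred (W (2 * b - 1)) s} := fun j =>
    ⟨Setoid.ker (col (first j.val) (fun _ => true)),
      (irred_iff hr _).2 ⟨_, col_proper _ _, fun x y => Iff.rfl⟩⟩
  let f : Fin b → Quotient (autSetoid (W (2 * b - 1))) := fun j => Quotient.mk _ (st j)
  have hinj : Function.Injective f := by
    intro j j' hjj
    have h1 := numPairs_congr _ _ (Quotient.exact hjj)
    have h2 := numPairs_col (first j.val) (fun _ => true) (st j).1 (fun x y => Iff.rfl)
    have h3 := numPairs_col (first j'.val) (fun _ => true) (st j').1 (fun x y => Iff.rfl)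
    rw [h1, h3, cnt_first (by omega), cnt_first (by omega)] at h2
    have e1 := j.isLt
    have e2 := j'.isLt
    have h4 : (((2 * b - 1 : ℕ) : ℤ) - j - j') * ((j' : ℤ) - j) = 0 := by nlinarith
    rcases mul_eq_zero.1 h4 with h5 | h5
    · exfalso
      omega
    · apply Fin.ext
      omega
  have hsurj : Function.Surjective f := by
    intro q
    induction q using Quotient.inductionOn with
    | h s =>
    obtain ⟨c, hc, hs⟩ := (irred_iff hr s.1).1 s.2
    -- normalise the colour of the centre
    have hperm : ∀ x : Fin 3, ∃ π : Equiv.Perm (Fin 3), π x = 0 := by decide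
    obtain ⟨π, hπ⟩ := hperm (c none)
    have hcol : ∀ π : Equiv.Perm (Fin 3), π (c none) = 0 →
        ∃ δ, (fun x => π (c x)) = col (fun i => decide (π (c (some (i, 0))) = 1)) δ := by
      intro π hπ
      exact ⟨_, exists_col (fun x => π (c x)) (fun x y h h' => hc x y h (π.injective h')) hπ⟩
    have hgood : ∃ π : Equiv.Perm (Fin 3), π (c none) = 0 ∧
        cnt (fun i : Fin (2 * b - 1) => decide (π (c (some (i, 0))) = 1)) < b := by
      by_cases hlt : cnt (fun i : Fin (2 * b - 1) => decide (π (c (some (i, 0))) = 1)) < b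
      · exact ⟨π, hπ, hlt⟩
      · refine ⟨π.trans (Equiv.swap 1 2), ?_, ?_⟩
        · rw [Equiv.trans_apply, hπ]
          decide
        · have h1 : cnt (fun i : Fin (2 * b - 1) => decide (π (c (some (i, 0))) = 1)) +
              cnt (fun i : Fin (2 * b - 1) =>
                decide ((π.trans (Equiv.swap 1 2)) (c (some (i, 0))) = 1)) = 2 * b - 1 := by
            unfold cnt
            simp only [decide_eq_true_eq]
            rw [← Finset.card_union_of_disjoint]
            · have : (univ.filter (fun i : Fin (2 * b - 1) => π (c (some (i, 0))) = 1)) ∪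
                  (univ.filter (fun i : Fin (2 * b - 1) =>
                    (π.trans (Equiv.swap 1 2)) (c (some (i, 0))) = 1)) = univ := by
                ext i
                simp only [mem_union, mem_filter, mem_univ, true_and, iff_true,
                  Equiv.trans_apply]
                have h2 := hc none (some (i, 0)) (by simp [adj_none_some])
                have h3 : π (c (some (i, 0))) ≠ 0 := by
                  rw [← hπ]
                  exact fun h => h2 (π.injective h).symm
                generalize π (c (some (i, 0))) = x at *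
                clear hcol h2 hlt
                revert h3
                revert x
                decide
              rw [this, card_univ, Fintype.card_fin]
            · rw [Finset.disjoint_left]
              intro i h1 h2
              rw [mem_filter] at h1 h2
              rw [Equiv.trans_apply, h1.2] at h2
              exact absurd h2.2 (by decide)
          omega
    obtain ⟨π', hπ', hcnt⟩ := hgood
    obtain ⟨δ, hδ⟩ := hcol π' hπ'
    set ε : Fin (2 * b - 1) → Bool := fun i => decide (π' (c (some (i, 0))) = 1) with hε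
    refine ⟨⟨cnt ε, hcnt⟩, ?_⟩
    apply Quotient.sound
    obtain ⟨φ, hφ⟩ := exists_auto (first (cnt ε)) (fun _ => true) ε δ
      (cnt_first (by omega))
    refine ⟨φ, fun x y => ?_⟩
    rw [hs]
    change col (first (cnt ε)) (fun _ => true) x = col (first (cnt ε)) (fun _ => true) y ↔ _
    rw [← hφ x, ← hφ y, ← hδ]
    exact π'.injective.eq_iff
  unfold numIrred
  rw [← Nat.card_eq_of_bijective f ⟨hinj, hsurj⟩, Nat.card_fin]

end Pool.Agent.N455.FAT
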